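import Pool.Agent.Helper59_LQD.HSCa

/-!
The core of row HSC.
-/

set_option autoImplicit false

open scoped BigOperators Matrix ComplexOrder

noncomputable section

namespace Pool.Agent.LE.QD.H59

variable {X K : Type} [Fintype X] [DecidableEq X] [Fintype K] [DecidableEq K]

/-- the projection to `C'` -/
def pr (C' : Finset X) : Matrix X X ℂ := Matrix.diagonal fun y => if y ∈ C' then 1 else 0

theorem pr_mulVec (C' : Finset X) (f : X → ℂ) (y : X) :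
    (pr C' *ᵥ f) y = if y ∈ C' then f y else 0 := by
  unfold pr
  rw [Matrix.mulVec_diagonal]
  by_cases h : y ∈ C'
  · rw [if_pos h, if_pos h, one_mul]
  · rw [if_neg h, if_neg h, zero_mul]

theorem nrm_pr_le (C' : Finset X) (f : X → ℂ) : nrm (pr C' *ᵥ f) ≤ nrm f := by
  have h := nrm_le_of_sq (f := pr C' *ᵥ f) (g := f) (c := 1) zero_le_one ?_
  · rwa [one_mul] at h
  · rw [one_pow, one_mul]
    refine Finset.sum_le_sum fun y _ => ?_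
    rw [pr_mulVec]
    by_cases h : y ∈ C'
    · rw [if_pos h]
    · rw [if_neg h, norm_zero, zero_pow two_ne_zero]
      exact sq_nonneg _

/-- the pointwise estimate -/
theorem vec_le {H G : Matrix X X ℂ} {E η : ℝ} {C' : Finset X} (hH : H.IsHermitian) (hη : 0 < η)
    (hG : (H - Matrix.diagonal fun _ => (⟨E, η⟩ : ℂ)) * G = 1) {f j F e : X → ℂ}
    (hf : pr C' *ᵥ f = f) (heq : (E : ℂ) • f - H *ᵥ f = j + F + e)
    (hF : nrm F ≤ η / 8 * nrm f) (hT : η * nrm (pr C' *ᵥ (G *ᵥ f)) ≤ 1 / 2 * nrm f) :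
    nrm (G *ᵥ j) ^ 2 ≤ 129 * nrm (pr C' *ᵥ (G *ᵥ j)) ^ 2 + 131 * (nrm e ^ 2 / η ^ 2) := by
  have hG' : G * (H - Matrix.diagonal fun _ => (⟨E, η⟩ : ℂ)) = 1 := mul_eq_one_comm.mp hG
  have hz : (⟨E, η⟩ : ℂ) = (E : ℂ) + Complex.I * (η : ℂ) := by
    apply Complex.ext <;> simp
  have h1 : (H - Matrix.diagonal fun _ => (⟨E, η⟩ : ℂ)) *ᵥ f =
      -(j + F + e) - (Complex.I * (η : ℂ)) • f := by
    have hd : (Matrix.diagonal fun _ => (⟨E, η⟩ : ℂ)) *ᵥ f = (⟨E, η⟩ : ℂ) • f := by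
      funext x
      rw [Matrix.mulVec_diagonal]
      rfl
    rw [Matrix.sub_mulVec, hd, ← heq, hz, add_smul]
    abel
  have h2 : f = -(G *ᵥ j) - G *ᵥ F - G *ᵥ e - (Complex.I * (η : ℂ)) • (G *ᵥ f) := by
    have h3 : G *ᵥ ((H - Matrix.diagonal fun _ => (⟨E, η⟩ : ℂ)) *ᵥ f) = f := by
      rw [Matrix.mulVec_mulVec, hG', Matrix.one_mulVec]
    rw [h1, Matrix.mulVec_sub, Matrix.mulVec_neg, Matrix.mulVec_add, Matrix.mulVec_add,
      Matrix.mulVec_smul] at h3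
    refine h3.symm.trans ?_
    abel
  have hI : ‖Complex.I * (η : ℂ)‖ = η := by
    rw [norm_mul, Complex.norm_I, one_mul, Complex.norm_real, Real.norm_eq_abs, abs_of_pos hη]
  have hGF := res_le hH hη hG F
  have hGe := res_le hH hη hG e
  have hGf := res_le hH hη hG f
  have hF' : nrm F / η ≤ 1 / 8 * nrm f := by
    rw [div_le_iff₀ hη]
    linarith
  have hGf' : η * nrm (G *ᵥ f) ≤ nrm f := by
    rw [le_div_iff₀ hη] at hGf
    linarith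
  have h3 : nrm f ≤ nrm (pr C' *ᵥ (G *ᵥ j)) + nrm (G *ᵥ F) + nrm (G *ᵥ e) +
      η * nrm (pr C' *ᵥ (G *ᵥ f)) := by
    have h4 : f = -(pr C' *ᵥ (G *ᵥ j)) + -(pr C' *ᵥ (G *ᵥ F)) + -(pr C' *ᵥ (G *ᵥ e)) +
        -((Complex.I * (η : ℂ)) • (pr C' *ᵥ (G *ᵥ f))) := by
      have h5 := congrArg (fun u => pr C' *ᵥ u) h2
      simp only [Matrix.mulVec_sub, Matrix.mulVec_neg, Matrix.mulVec_smul] at h5
      rw [hf] at h5
      refine h5.trans ?_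
      abel
    have h6 := nrm_add (-(pr C' *ᵥ (G *ᵥ j)) + -(pr C' *ᵥ (G *ᵥ F)) + -(pr C' *ᵥ (G *ᵥ e)))
      (-((Complex.I * (η : ℂ)) • (pr C' *ᵥ (G *ᵥ f))))
    have h7 := nrm_add (-(pr C' *ᵥ (G *ᵥ j)) + -(pr C' *ᵥ (G *ᵥ F))) (-(pr C' *ᵥ (G *ᵥ e)))
    have h8 := nrm_add (-(pr C' *ᵥ (G *ᵥ j))) (-(pr C' *ᵥ (G *ᵥ F)))
    rw [← h4] at h6
    rw [nrm_neg, nrm_smul, hI] at h6
    rw [nrm_neg (pr C' *ᵥ (G *ᵥ e))] at h7
    rw [nrm_neg, nrm_neg] at h8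
    have h9 := nrm_pr_le C' (G *ᵥ F)
    have h10 := nrm_pr_le C' (G *ᵥ e)
    linarith
  have h4 : nrm (G *ᵥ j) ≤ nrm f + nrm (G *ᵥ F) + nrm (G *ᵥ e) + η * nrm (G *ᵥ f) := by
    have h5 : G *ᵥ j = -f + -(G *ᵥ F) + -(G *ᵥ e) + -((Complex.I * (η : ℂ)) • (G *ᵥ f)) := by
      have h6 : f + G *ᵥ j = -(G *ᵥ F) - G *ᵥ e - (Complex.I * (η : ℂ)) • (G *ᵥ f) := by
        nth_rewrite 1 [h2]
        abel
      have h7 : G *ᵥ j = -f + (f + G *ᵥ j) := by abel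
      rw [h7, h6]
      abel
    have h6 := nrm_add (-f + -(G *ᵥ F) + -(G *ᵥ e)) (-((Complex.I * (η : ℂ)) • (G *ᵥ f)))
    have h7 := nrm_add (-f + -(G *ᵥ F)) (-(G *ᵥ e))
    have h8 := nrm_add (-f) (-(G *ᵥ F))
    rw [← h5] at h6
    rw [nrm_neg ((Complex.I * (η : ℂ)) • (G *ᵥ f)), nrm_smul, hI] at h6
    rw [nrm_neg (G *ᵥ e)] at h7
    rw [nrm_neg, nrm_neg] at h8
    linarith
  have ha := nrm_nonneg (pr C' *ᵥ (G *ᵥ j))
  have hb : 0 ≤ nrm e / η := div_nonneg (nrm_nonneg e) hη.le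
  have hf0 := nrm_nonneg f
  have hj0 := nrm_nonneg (G *ᵥ j)
  rw [← div_pow]
  have hA : 3 * nrm f ≤ 8 * (nrm (pr C' *ᵥ (G *ᵥ j)) + nrm e / η) := by linarith
  have hB : 8 * nrm (G *ᵥ j) ≤ 17 * nrm f + 8 * (nrm e / η) := by linarith
  have hA2 : 9 * nrm f ^ 2 ≤ 128 * (nrm (pr C' *ᵥ (G *ᵥ j)) ^ 2 + (nrm e / η) ^ 2) := by
    have h5 : (3 * nrm f) ^ 2 ≤ (8 * (nrm (pr C' *ᵥ (G *ᵥ j)) + nrm e / η)) ^ 2 :=
      pow_le_pow_left₀ (by positivity) hA 2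
    nlinarith [sq_nonneg (nrm (pr C' *ᵥ (G *ᵥ j)) - nrm e / η)]
  have hB2 : 64 * nrm (G *ᵥ j) ^ 2 ≤ 578 * nrm f ^ 2 + 128 * (nrm e / η) ^ 2 := by
    have h5 : (8 * nrm (G *ᵥ j)) ^ 2 ≤ (17 * nrm f + 8 * (nrm e / η)) ^ 2 :=
      pow_le_pow_left₀ (by positivity) hB 2
    nlinarith [sq_nonneg (17 * nrm f - 8 * (nrm e / η))]
  nlinarith [sq_nonneg (nrm (pr C' *ᵥ (G *ᵥ j))), sq_nonneg (nrm e / η)]

/-- columns -/
theorem col_eq {Y : Type} (B : Matrix Y K ℂ) (k : K) : B *ᵥ (Pi.single k 1 : K → ℂ) = fun x => B x k := by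
  rw [Matrix.mulVec_single_one]
  rfl

theorem hs_cols' {Y : Type} [Fintype Y] (B : Matrix Y K ℂ) : hs B = ∑ k, nrm (B *ᵥ (Pi.single k 1 : K → ℂ)) ^ 2 := by
  rw [hs_cols]
  exact Finset.sum_congr rfl fun k _ => by rw [col_eq]

/-- a contraction from the left -/
theorem hs_left_le {Y : Type} [Fintype Y] {A : Matrix Y X ℂ} {c : ℝ}
    (hA : ∀ f : X → ℂ, nrm (A *ᵥ f) ≤ c * nrm f) (B : Matrix X K ℂ) :
    hs (A * B) ≤ c ^ 2 * hs B := by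
  rw [hs_cols', hs_cols', Finset.mul_sum]
  refine Finset.sum_le_sum fun k _ => ?_
  rw [← Matrix.mulVec_mulVec, ← mul_pow]
  exact pow_le_pow_left₀ (nrm_nonneg _) (hA _) 2

/-- the core of the row -/
theorem core {H G : Matrix X X ℂ} {E η S e₁ : ℝ} {C' : Finset X} {J Ψ Fm Em : Matrix X K ℂ}
    {Q : Matrix K K ℂ} (hH : H.IsHermitian) (hη : 0 < η)
    (hG : (H - Matrix.diagonal fun _ => (⟨E, η⟩ : ℂ)) * G = 1)
    (hJ : ∀ v : K → ℂ, nrm (J *ᵥ v) ≤ 1 * nrm v)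
    (hP : pr C' * Ψ = Ψ) (heq : (E : ℂ) • Ψ - H * Ψ = J + Fm + Em)
    (hF : ∀ v : K → ℂ, nrm (Fm *ᵥ v) ≤ η / 8 * nrm (Ψ *ᵥ v))
    (hQ : Q.IsHermitian) (hQQ : Q * Q = Q)
    (hT : ∀ v : K → ℂ, η * nrm (pr C' *ᵥ (G *ᵥ (Ψ *ᵥ (Q *ᵥ v)))) ≤ 1 / 2 * nrm (Ψ *ᵥ (Q *ᵥ v)))
    (hE : hs Em ≤ e₁) (hS : hs (pr C' * (G * J)) ≤ S)
    (htr : (Matrix.trace (1 - Q)).re ≤ 4 * η ^ 2 * S) :
    hs (G * J) ≤ 133 * S + 131 * (e₁ / η ^ 2) := by
  have hη2 : 0 < η ^ 2 := by positivity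
  -- the good part
  have h1 : hs (G * J * Q) ≤ 129 * hs (pr C' * (G * J)) + 131 * (hs Em / η ^ 2) := by
    have h2 : hs (pr C' * (G * J) * Q) ≤ hs (pr C' * (G * J)) := by
      have := hs_proj (pr C' * (G * J)) hQ hQQ
      have h3 := hs_nonneg (pr C' * (G * J) * (1 - Q))
      linarith
    have h3 : hs (Em * Q) ≤ hs Em := by
      have := hs_proj Em hQ hQQ
      have h3 := hs_nonneg (Em * (1 - Q))
      linarith
    have h4 : hs (G * J * Q) ≤ 129 * hs (pr C' * (G * J) * Q) + 131 * (hs (Em * Q) / η ^ 2) := by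
      rw [hs_cols', hs_cols', hs_cols', Finset.mul_sum, Finset.sum_div, Finset.mul_sum,
        ← Finset.sum_add_distrib]
      refine Finset.sum_le_sum fun k _ => ?_
      have h5 := vec_le (C' := C') hH hη hG (f := Ψ *ᵥ (Q *ᵥ Pi.single k 1))
        (j := J *ᵥ (Q *ᵥ Pi.single k 1)) (F := Fm *ᵥ (Q *ᵥ Pi.single k 1))
        (e := Em *ᵥ (Q *ᵥ Pi.single k 1)) ?_ ?_ (hF _) (hT _)
      · simpa only [Matrix.mulVec_mulVec, Matrix.mul_assoc] using h5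
      · rw [Matrix.mulVec_mulVec, hP]
      · rw [← Matrix.add_mulVec, ← Matrix.add_mulVec, ← heq, Matrix.sub_mulVec, Matrix.smul_mulVec,
          ← Matrix.mulVec_mulVec]
    have h5 : hs (Em * Q) / η ^ 2 ≤ hs Em / η ^ 2 := div_le_div_of_nonneg_right h3 hη2.le
    linarith
  -- the bad part
  have h2 : hs (G * J * (1 - Q)) ≤ 4 * S := by
    have h3 : hs (G * (J * (1 - Q))) ≤ (1 / η) ^ 2 * hs (J * (1 - Q)) := by
      refine hs_left_le (fun f => ?_) _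
      rw [one_div, mul_comm, ← div_eq_mul_inv]
      exact res_le hH hη hG f
    have h4 : hs (J * (1 - Q)) ≤ 1 ^ 2 * hs (1 - Q) := hs_left_le hJ _
    have h5 : hs (1 - Q) = (Matrix.trace (1 - Q)).re := by
      have h6 := hs_trace (1 - Q)
      have h7 : (1 - Q) * (1 - Q)ᴴ = 1 - Q := by
        rw [Matrix.conjTranspose_sub, Matrix.conjTranspose_one, hQ.eq, Matrix.sub_mul,
          Matrix.mul_sub, Matrix.mul_sub, hQQ, Matrix.one_mul, Matrix.mul_one, Matrix.one_mul,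
          sub_self, sub_zero]
      rw [h7] at h6
      rw [← h6, Complex.ofReal_re]
    rw [Matrix.mul_assoc]
    rw [one_pow, one_mul, h5] at h4
    have h8 : (1 / η) ^ 2 * hs (J * (1 - Q)) ≤ (1 / η) ^ 2 * (4 * η ^ 2 * S) :=
      mul_le_mul_of_nonneg_left (h4.trans htr) (by positivity)
    have h9 : (1 / η) ^ 2 * (4 * η ^ 2 * S) = 4 * S := by
      field_simp
    linarith
  have h3 := hs_proj (G * J) hQ hQQ
  have h4 : hs Em / η ^ 2 ≤ e₁ / η ^ 2 := div_le_div_of_nonneg_right hE hη2.le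
  linarith

end Pool.Agent.LE.QD.H59
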