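import Pool.Agent.LE.StmtsQD
import Pool.Agent.Helper59_LQD.HSCb

/-!
Row HSC: the Hilbert-Schmidt bound.
-/

set_option autoImplicit false

open scoped BigOperators Matrix ComplexOrder

noncomputable section

namespace Pool.Agent.LE.QD.H59

open Pool.Agent.LE.CL (LaqStmt)

variable {X : Type} [Fintype X] [DecidableEq X]

/-- the inclusion of `ℓ²(C)` -/
def inc (C : Finset X) : Matrix X C ℂ := fun y x => if y = x.1 then 1 else 0

theorem mul_inc (C : Finset X) (G : Matrix X X ℂ) (y : X) (x : C) :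
    (G * inc C) y x = G y x.1 := by
  rw [Matrix.mul_apply]
  unfold inc
  simp

theorem nrm_inc_le (C : Finset X) (v : C → ℂ) : nrm (inc C *ᵥ v) ≤ 1 * nrm v := by
  apply nrm_le_of_sq zero_le_one
  rw [one_pow, one_mul]
  have h1 : ∀ x : C, (inc C *ᵥ v) x.1 = v x := by
    intro x
    change ∑ b : C, (if x.1 = b.1 then (1 : ℂ) else 0) * v b = v x
    rw [Finset.sum_eq_single x]
    · rw [if_pos rfl, one_mul]
    · intro b _ hb
      rw [if_neg (fun h : x.1 = b.1 => hb (Subtype.ext h.symm)), zero_mul]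
    · intro h
      exact absurd (Finset.mem_univ x) h
  have h2 : ∀ y, y ∉ C → (inc C *ᵥ v) y = 0 := by
    intro y hy
    change ∑ b : C, (if y = b.1 then (1 : ℂ) else 0) * v b = 0
    refine Finset.sum_eq_zero fun b _ => ?_
    rw [if_neg (fun h : y = b.1 => hy (h ▸ b.2)), zero_mul]
  have h3 : ∑ x : C, ‖v x‖ ^ 2 = ∑ y ∈ C, ‖(inc C *ᵥ v) y‖ ^ 2 := by
    rw [← Finset.sum_coe_sort C (fun y => ‖(inc C *ᵥ v) y‖ ^ 2)]
    exact Finset.sum_congr rfl fun x _ => by rw [h1]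
  rw [h3]
  refine le_of_eq (Finset.sum_subset (Finset.subset_univ C) fun y _ hy => ?_).symm
  rw [h2 y hy, norm_zero, zero_pow two_ne_zero]

theorem hsc (hLAQ : LaqStmt) : HscStmt := by
  intro X _ _ H G E η ε e₀ C C' ψ F e hH hη hε hCC hG hsupp heq hF he hS
  set Ψ : Matrix X C ℂ := fun y x => ψ x y with hΨ
  set Fm : Matrix X C ℂ := fun y x => F x y with hFm
  set Em : Matrix X C ℂ := fun y x => e x y with hEm
  set T : Matrix X X ℂ := ((Real.sqrt 2 * η : ℝ) : ℂ) • (pr C' * G * pr C') with hTdef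
  set S : ℝ := ∑ x ∈ C', ∑ y ∈ C', ‖G x y‖ ^ 2 with hSdef
  obtain ⟨Q, hQ, hQQ, htr, hT⟩ := hLAQ C X (Tᴴ * T) Ψ (Matrix.posSemidef_conjTranspose_mul_self T)
  have hs2 : (Real.sqrt 2 * η) ^ 2 = 2 * η ^ 2 := by
    rw [mul_pow, Real.sq_sqrt (by norm_num)]
  have hlnt : ∀ (A : X → X → ℂ) (v : C → ℂ),
      Pool.Agent.LE.IR.lnt C A v = (fun y (x : C) => A x y : Matrix X C ℂ) *ᵥ v := by
    intro A v
    funext y
    unfold Pool.Agent.LE.IR.lnt Matrix.mulVec dotProduct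
    exact Finset.sum_congr rfl fun x _ => mul_comm _ _
  have hP : pr C' * Ψ = Ψ := by
    funext y x
    unfold pr
    rw [Matrix.diagonal_mul]
    by_cases h : y ∈ C'
    · rw [if_pos h, one_mul]
    · rw [if_neg h, zero_mul]
      exact (hsupp x.1 x.2 y h).symm
  have hPv : ∀ v : C → ℂ, pr C' *ᵥ (Ψ *ᵥ v) = Ψ *ᵥ v := by
    intro v
    rw [Matrix.mulVec_mulVec, hP]
  have heq' : (E : ℂ) • Ψ - H * Ψ = inc C + Fm + Em := by
    funext y x
    have := heq x.1 x.2 y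
    change (E : ℂ) * ψ x y - (H * Ψ) y x = (if y = x.1 then 1 else 0) + F x y + e x y
    rw [← this]
    rfl
  have hF' : ∀ v : C → ℂ, nrm (Fm *ᵥ v) ≤ η / 8 * nrm (Ψ *ᵥ v) := by
    intro v
    apply nrm_le_of_sq (by positivity)
    have := hF v
    rw [hlnt, hlnt] at this
    exact this
  have hST : hs T = 2 * η ^ 2 * S := by
    have h1 : ∀ x y, T x y = ((Real.sqrt 2 * η : ℝ) : ℂ) *
        (if x ∈ C' then (if y ∈ C' then G x y else 0) else 0) := by
      intro x y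
      rw [hTdef]
      unfold pr
      rw [Matrix.smul_apply, Matrix.mul_diagonal, Matrix.diagonal_mul, smul_eq_mul]
      by_cases h : x ∈ C' <;> by_cases h' : y ∈ C' <;> simp [h, h']
    unfold hs
    rw [Finset.sum_comm, hSdef, Finset.mul_sum]
    have h2 : ∀ x, ∑ y, ‖T x y‖ ^ 2 = if x ∈ C' then 2 * η ^ 2 * ∑ y ∈ C', ‖G x y‖ ^ 2 else 0 := by
      intro x
      by_cases h : x ∈ C'
      · rw [if_pos h, Finset.mul_sum, ← Finset.sum_subset (Finset.subset_univ C')]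
        · refine Finset.sum_congr rfl fun y hy => ?_
          rw [h1, if_pos h, if_pos hy, norm_mul, mul_pow, Complex.norm_real, Real.norm_eq_abs,
            sq_abs, hs2]
        · intro y _ hy
          rw [h1, if_neg hy, ite_self, mul_zero, norm_zero, zero_pow two_ne_zero]
      · rw [if_neg h]
        refine Finset.sum_eq_zero fun y _ => ?_
        rw [h1, if_neg h, mul_zero, norm_zero, zero_pow two_ne_zero]
    rw [← Finset.sum_subset (Finset.subset_univ C')]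
    · refine Finset.sum_congr rfl fun x hx => ?_
      rw [h2, if_pos hx]
    · intro x _ hx
      rw [h2, if_neg hx]
  have htr' : (Matrix.trace (1 - Q)).re ≤ 4 * η ^ 2 * S := by
    have h1 := hs_trace' T
    rw [← h1, Complex.ofReal_re, hST] at htr
    linarith
  have hT' : ∀ v : C → ℂ, η * nrm (pr C' *ᵥ (G *ᵥ (Ψ *ᵥ (Q *ᵥ v)))) ≤
      1 / 2 * nrm (Ψ *ᵥ (Q *ᵥ v)) := by
    intro v
    have h1 := hT v
    set f : X → ℂ := Ψ *ᵥ (Q *ᵥ v) with hf
    have h2 : star f ⬝ᵥ ((Tᴴ * T) *ᵥ f) = star (T *ᵥ f) ⬝ᵥ (T *ᵥ f) := by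
      rw [← Matrix.mulVec_mulVec, Matrix.dotProduct_mulVec, Matrix.star_mulVec T f]
    have h3 : T *ᵥ f = ((Real.sqrt 2 * η : ℝ) : ℂ) • (pr C' *ᵥ (G *ᵥ f)) := by
      rw [hTdef, Matrix.smul_mulVec, ← Matrix.mulVec_mulVec, ← Matrix.mulVec_mulVec, hf, hPv]
    have h4 : nrm (T *ᵥ f) ^ 2 = 2 * η ^ 2 * nrm (pr C' *ᵥ (G *ᵥ f)) ^ 2 := by
      rw [h3, nrm_smul, mul_pow, Complex.norm_real, Real.norm_eq_abs, sq_abs, hs2]
    have h5 : Pool.Agent.Anderson.nsq f = nrm f ^ 2 := (nrm_sq f).symm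
    rw [h2, dot_self, Complex.ofReal_re, ← nrm_sq, h4, h5] at h1
    have h6 : (η * nrm (pr C' *ᵥ (G *ᵥ f))) ^ 2 ≤ (1 / 2 * nrm f) ^ 2 := by
      rw [mul_pow, mul_pow]
      linarith
    exact (abs_le_of_sq_le_sq' h6 (mul_nonneg (by norm_num) (nrm_nonneg f))).2
  have hE : hs Em ≤ e₀ * C.card := by
    have h1 : hs Em ≤ ∑ _x : C, e₀ := Finset.sum_le_sum fun x _ => he x.1 x.2
    rwa [Finset.sum_const, Finset.card_univ, Fintype.card_coe, nsmul_eq_mul, mul_comm] at h1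
  have hS' : hs (pr C' * (G * inc C)) ≤ S := by
    have h1 : ∀ (y : X) (x : C), (pr C' * (G * inc C)) y x = if y ∈ C' then G y x.1 else 0 := by
      intro y x
      unfold pr
      rw [Matrix.diagonal_mul, mul_inc]
      by_cases h : y ∈ C'
      · rw [if_pos h, if_pos h, one_mul]
      · rw [if_neg h, if_neg h, zero_mul]
    have h2 : ∀ x : C, ∑ y, ‖(pr C' * (G * inc C)) y x‖ ^ 2 = ∑ y ∈ C', ‖G y x.1‖ ^ 2 := by
      intro x
      rw [← Finset.sum_subset (Finset.subset_univ C')]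
      · refine Finset.sum_congr rfl fun y hy => ?_
        rw [h1, if_pos hy]
      · intro y _ hy
        rw [h1, if_neg hy, norm_zero, zero_pow two_ne_zero]
    unfold hs
    rw [Finset.sum_congr rfl fun x _ => h2 x,
      Finset.sum_coe_sort C (fun x => ∑ y ∈ C', ‖G y x‖ ^ 2), hSdef, Finset.sum_comm (s := C')]
    exact Finset.sum_le_sum_of_subset_of_nonneg hCC fun _ _ _ =>
      Finset.sum_nonneg fun _ _ => sq_nonneg _
  have hcore := core (C' := C') (J := inc C) (Ψ := Ψ) (Fm := Fm) (Em := Em) (Q := Q) hH hη hG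
    (nrm_inc_le C) hP heq' hF' hQ hQQ hT' hE hS' htr'
  have hsum : ∑ x ∈ C, (G x x).im = η * hs (G * inc C) := by
    rw [← Finset.sum_coe_sort C (fun x => (G x x).im)]
    unfold hs
    rw [Finset.mul_sum]
    refine Finset.sum_congr rfl fun x _ => ?_
    rw [diag_im hH hG]
    congr 1
    exact Finset.sum_congr rfl fun y _ => by rw [mul_inc]
  have h0 : 0 ≤ e₀ * C.card := (hs_nonneg Em).trans hE
  have h1 : η * (133 * S + 131 * (e₀ * C.card / η ^ 2)) =
      133 * (η * S) + 131 * (e₀ * C.card / η) := by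
    field_simp
  have h2 : η * S ≤ ε * C'.card := by
    have := (le_div_iff₀ hη).mp hS
    linarith
  have h3 : 0 ≤ e₀ * C.card / η := div_nonneg h0 hη.le
  have h4 : 0 ≤ ε * C'.card := mul_nonneg hε (Nat.cast_nonneg _)
  rw [hsum]
  calc η * hs (G * inc C) ≤ η * (133 * S + 131 * (e₀ * C.card / η ^ 2)) :=
        mul_le_mul_of_nonneg_left hcore hη.le
    _ = 133 * (η * S) + 131 * (e₀ * C.card / η) := h1
    _ ≤ 200 * (ε * C'.card + e₀ * C.card / η) := by linarith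

end Pool.Agent.LE.QD.H59
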