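import Mathlib

/-!
Linear algebra for row HSC: norms of vectors and matrices.
-/

set_option autoImplicit false

open scoped BigOperators Matrix ComplexOrder

noncomputable section

namespace Pool.Agent.LE.QD.H59

/-- the norm of `ℓ²` -/
def nrm {X : Type} [Fintype X] (f : X → ℂ) : ℝ := ‖(WithLp.toLp 2 f : EuclideanSpace ℂ X)‖

variable {X Y : Type} [Fintype X] [Fintype Y]

theorem nrm_nonneg (f : X → ℂ) : 0 ≤ nrm f := norm_nonneg _

theorem nrm_sq (f : X → ℂ) : nrm f ^ 2 = ∑ x, ‖f x‖ ^ 2 := by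
  unfold nrm
  rw [EuclideanSpace.norm_sq_eq]

theorem nrm_add (f g : X → ℂ) : nrm (f + g) ≤ nrm f + nrm g := by
  unfold nrm
  rw [WithLp.toLp_add]
  exact norm_add_le _ _

theorem nrm_smul (c : ℂ) (f : X → ℂ) : nrm (c • f) = ‖c‖ * nrm f := by
  unfold nrm
  rw [WithLp.toLp_smul]
  exact norm_smul _ _

theorem nrm_neg (f : X → ℂ) : nrm (-f) = nrm f := by
  unfold nrm
  rw [WithLp.toLp_neg]
  exact norm_neg _

theorem nrm_le_of_sq {f : X → ℂ} {g : Y → ℂ} {c : ℝ} (hc : 0 ≤ c)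
    (h : ∑ x, ‖f x‖ ^ 2 ≤ c ^ 2 * ∑ x, ‖g x‖ ^ 2) : nrm f ≤ c * nrm g := by
  apply le_of_sq_le_sq _ (mul_nonneg hc (nrm_nonneg g))
  rw [mul_pow, nrm_sq, nrm_sq]
  exact h

theorem dot_le (f g : X → ℂ) : ‖star g ⬝ᵥ f‖ ≤ nrm g * nrm f := by
  have h := norm_inner_le_norm (𝕜 := ℂ) (WithLp.toLp 2 g : EuclideanSpace ℂ X)
    (WithLp.toLp 2 f : EuclideanSpace ℂ X)
  have e : inner ℂ (WithLp.toLp 2 g : EuclideanSpace ℂ X) (WithLp.toLp 2 f : EuclideanSpace ℂ X) =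
      star g ⬝ᵥ f := by
    rw [PiLp.inner_apply]
    unfold dotProduct
    refine Finset.sum_congr rfl fun x _ => ?_
    rw [RCLike.inner_apply, mul_comm]
    rfl
  rw [e] at h
  exact h

theorem dot_self (g : X → ℂ) : star g ⬝ᵥ g = ((∑ x, ‖g x‖ ^ 2 : ℝ) : ℂ) := by
  unfold dotProduct
  push_cast
  refine Finset.sum_congr rfl fun x _ => ?_
  change starRingEnd ℂ (g x) * g x = _
  rw [mul_comm, Complex.mul_conj, Complex.normSq_eq_norm_sq]
  push_cast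
  rfl

/-- the square of the Hilbert-Schmidt norm -/
def hs (B : Matrix X Y ℂ) : ℝ := ∑ y, ∑ x, ‖B x y‖ ^ 2

theorem hs_nonneg (B : Matrix X Y ℂ) : 0 ≤ hs B :=
  Finset.sum_nonneg fun _ _ => Finset.sum_nonneg fun _ _ => sq_nonneg _

theorem hs_trace (B : Matrix X Y ℂ) : (hs B : ℂ) = Matrix.trace (B * Bᴴ) := by
  unfold hs Matrix.trace
  rw [Finset.sum_comm]
  push_cast
  refine Finset.sum_congr rfl fun x _ => ?_
  rw [Matrix.diag_apply, Matrix.mul_apply]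
  refine Finset.sum_congr rfl fun y _ => ?_
  rw [Matrix.conjTranspose_apply]
  change _ = B x y * starRingEnd ℂ (B x y)
  rw [Complex.mul_conj, Complex.normSq_eq_norm_sq]
  push_cast
  rfl

theorem hs_trace' (B : Matrix X Y ℂ) : (hs B : ℂ) = Matrix.trace (Bᴴ * B) := by
  rw [hs_trace, Matrix.trace_mul_comm]

/-- decomposition with a projection -/
theorem hs_proj [DecidableEq Y] (B : Matrix X Y ℂ) {Q : Matrix Y Y ℂ} (hQ : Q.IsHermitian)
    (hQQ : Q * Q = Q) : hs B = hs (B * Q) + hs (B * (1 - Q)) := by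
  have h1 : (hs (B * Q) : ℂ) = Matrix.trace (B * Q * Bᴴ) := by
    rw [hs_trace, Matrix.conjTranspose_mul, hQ.eq]
    congr 1
    calc B * Q * (Q * Bᴴ) = B * (Q * Q) * Bᴴ := by simp only [Matrix.mul_assoc]
      _ = B * Q * Bᴴ := by rw [hQQ]
  have h2 : (hs (B * (1 - Q)) : ℂ) = Matrix.trace (B * (1 - Q) * Bᴴ) := by
    rw [hs_trace, Matrix.conjTranspose_mul, Matrix.conjTranspose_sub, Matrix.conjTranspose_one,
      hQ.eq]
    congr 1
    have h3 : (1 - Q) * (1 - Q) = 1 - Q := by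
      rw [Matrix.sub_mul, Matrix.mul_sub, Matrix.mul_sub, hQQ, Matrix.one_mul, Matrix.mul_one,
        Matrix.one_mul, sub_self, sub_zero]
    calc B * (1 - Q) * ((1 - Q) * Bᴴ) = B * ((1 - Q) * (1 - Q)) * Bᴴ := by
          simp only [Matrix.mul_assoc]
      _ = B * (1 - Q) * Bᴴ := by rw [h3]
  have h4 : (hs B : ℂ) = hs (B * Q) + hs (B * (1 - Q)) := by
    rw [h1, h2, hs_trace, ← Matrix.trace_add, ← Matrix.add_mul, ← Matrix.mul_add,
      add_sub_cancel, Matrix.mul_one]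
  exact_mod_cast h4

theorem hs_cols (B : Matrix X Y ℂ) : hs B = ∑ k, nrm (fun x => B x k) ^ 2 := by
  unfold hs
  exact Finset.sum_congr rfl fun k _ => (nrm_sq _).symm

/-- identity for the imaginary part -/
theorem im_dot {H : Matrix X X ℂ} [DecidableEq X] (hH : H.IsHermitian) (E η : ℝ) {f g : X → ℂ}
    (h : (H - Matrix.diagonal fun _ => (⟨E, η⟩ : ℂ)) *ᵥ g = f) :
    (star g ⬝ᵥ f).im = -(η * ∑ x, ‖g x‖ ^ 2) := by
  have hd : (Matrix.diagonal fun _ => (⟨E, η⟩ : ℂ)) *ᵥ g = (⟨E, η⟩ : ℂ) • g := by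
    funext x
    rw [Matrix.mulVec_diagonal]
    rfl
  rw [← h, Matrix.sub_mulVec, dotProduct_sub, hd, dotProduct_smul, dot_self, Complex.sub_im]
  have h1 : (star g ⬝ᵥ H *ᵥ g).im = 0 := hH.im_star_dotProduct_mulVec_self g
  rw [h1, smul_eq_mul, Complex.mul_im, Complex.ofReal_re, Complex.ofReal_im]
  simp

/-- the norm of the resolvent -/
theorem res_le {H G : Matrix X X ℂ} [DecidableEq X] (hH : H.IsHermitian) {E η : ℝ} (hη : 0 < η)
    (hG : (H - Matrix.diagonal fun _ => (⟨E, η⟩ : ℂ)) * G = 1) (f : X → ℂ) :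
    nrm (G *ᵥ f) ≤ nrm f / η := by
  have h1 : (H - Matrix.diagonal fun _ => (⟨E, η⟩ : ℂ)) *ᵥ (G *ᵥ f) = f := by
    rw [Matrix.mulVec_mulVec, hG, Matrix.one_mulVec]
  have h2 := im_dot hH E η h1
  have h3 := dot_le f (G *ᵥ f)
  have h4 := Complex.abs_im_le_norm (star (G *ᵥ f) ⬝ᵥ f)
  rw [h2, abs_neg, ← nrm_sq, abs_of_nonneg (by positivity)] at h4
  have h5 : η * nrm (G *ᵥ f) ^ 2 ≤ nrm (G *ᵥ f) * nrm f := h4.trans h3
  rw [le_div_iff₀ hη]
  rcases (nrm_nonneg (G *ᵥ f)).eq_or_lt with h6 | h6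
  · rw [← h6, zero_mul]
    exact nrm_nonneg f
  · nlinarith

/-- the diagonal of the resolvent -/
theorem diag_im {H G : Matrix X X ℂ} [DecidableEq X] (hH : H.IsHermitian) {E η : ℝ}
    (hG : (H - Matrix.diagonal fun _ => (⟨E, η⟩ : ℂ)) * G = 1) (x : X) :
    (G x x).im = η * ∑ y, ‖G y x‖ ^ 2 := by
  have h1 : (H - Matrix.diagonal fun _ => (⟨E, η⟩ : ℂ)) *ᵥ (G *ᵥ Pi.single x 1) =
      Pi.single x 1 := by
    rw [Matrix.mulVec_mulVec, hG, Matrix.one_mulVec]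
  have h2 := im_dot hH E η h1
  have h3 : G *ᵥ Pi.single x 1 = fun y => G y x := by
    rw [Matrix.mulVec_single_one]
    rfl
  rw [h3] at h2
  have h4 : star (fun y => G y x) ⬝ᵥ (Pi.single x 1 : X → ℂ) = star (G x x) := by
    rw [dotProduct_single_one]
    rfl
  rw [h4] at h2
  have h5 : (star (G x x)).im = -(G x x).im := Complex.conj_im _
  rw [h5] at h2
  linarith

end Pool.Agent.LE.QD.H59
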